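import Mathlib

set_option autoImplicit false

open Set Cardinal

namespace Pool.Agent.BASets

/-- index set of size continuum -/
abbrev S := Finset ℝ × Finset (Finset ℝ)

theorem card_S : #S = 𝔠 := by
  have h1 : #(Finset ℝ) = 𝔠 := by rw [mk_finset_of_infinite, mk_real]
  have h2 : #(Finset (Finset ℝ)) = 𝔠 := by rw [mk_finset_of_infinite, h1]
  rw [mk_prod, h1, h2]; simp

theorem exists_equiv : Nonempty (ℝ ≃ S) := by
  rw [← Cardinal.eq, card_S, mk_real]

noncomputable def en : ℝ ≃ S := exists_equiv.some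

open Classical in
/-- the sets `A_X` -/
noncomputable def AX (X : Set ℝ) : Set ℝ := {r | ((en r).1.filter (· ∈ X)) ∈ (en r).2}

/-- `s` is determined by finitely many `A_X`, `X ∈ T`, up to a finite set -/
def Det (T : Set (Set ℝ)) (s : Set ℝ) : Prop :=
  ∃ (C : Finset (Set ℝ)) (E : Finset ℝ), (∀ X ∈ C, X ∈ T) ∧
    ∀ r, r ∉ E → ∀ r', r' ∉ E → (∀ X ∈ C, (r ∈ AX X ↔ r' ∈ AX X)) → (r ∈ s ↔ r' ∈ s)

/-- the algebra attached to `T` -/
def BT (T : Set (Set ℝ)) : BooleanSubalgebra (Set ℝ) where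
  carrier := {s | Det T s}
  supClosed' := by
    classical
    rintro s ⟨C, E, hC, h⟩ t ⟨C', E', hC', h'⟩
    refine ⟨C ∪ C', E ∪ E', ?_, ?_⟩
    · intro X hX
      rcases Finset.mem_union.1 hX with hX | hX
      · exact hC X hX
      · exact hC' X hX
    · intro r hr r' hr' hrr
      rw [Finset.mem_union, not_or] at hr hr'
      have h1 := h r hr.1 r' hr'.1 (fun X hX => hrr X (Finset.mem_union_left _ hX))
      have h2 := h' r hr.2 r' hr'.2 (fun X hX => hrr X (Finset.mem_union_right _ hX))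
      show (r ∈ s ∨ r ∈ t) ↔ (r' ∈ s ∨ r' ∈ t)
      rw [h1, h2]
  infClosed' := by
    classical
    rintro s ⟨C, E, hC, h⟩ t ⟨C', E', hC', h'⟩
    refine ⟨C ∪ C', E ∪ E', ?_, ?_⟩
    · intro X hX
      rcases Finset.mem_union.1 hX with hX | hX
      · exact hC X hX
      · exact hC' X hX
    · intro r hr r' hr' hrr
      rw [Finset.mem_union, not_or] at hr hr'
      have h1 := h r hr.1 r' hr'.1 (fun X hX => hrr X (Finset.mem_union_left _ hX))
      have h2 := h' r hr.2 r' hr'.2 (fun X hX => hrr X (Finset.mem_union_right _ hX))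
      show (r ∈ s ∧ r ∈ t) ↔ (r' ∈ s ∧ r' ∈ t)
      rw [h1, h2]
  compl_mem' := by
    rintro s ⟨C, E, hC, h⟩
    refine ⟨C, E, hC, fun r hr r' hr' hrr => ?_⟩
    show (¬ r ∈ s) ↔ (¬ r' ∈ s)
    rw [h r hr r' hr' hrr]
  bot_mem' := ⟨∅, ∅, by simp, fun _ _ _ _ _ => Iff.rfl⟩

theorem mem_BT (T : Set (Set ℝ)) (s : Set ℝ) : s ∈ BT T ↔ Det T s := Iff.rfl

theorem single_mem (T : Set (Set ℝ)) (x : ℝ) : ({x} : Set ℝ) ∈ BT T := by
  refine ⟨∅, {x}, by simp, fun r hr r' hr' _ => ?_⟩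
  rw [Finset.mem_singleton] at hr hr'
  simp [hr, hr']

theorem AX_mem (T : Set (Set ℝ)) (X : Set ℝ) (hX : X ∈ T) : AX X ∈ BT T := by
  refine ⟨{X}, ∅, by simpa using hX, fun r _ r' _ h => h X (by simp)⟩

theorem AX_not_mem (T : Set (Set ℝ)) (X : Set ℝ) (hX : X ∉ T) : AX X ∉ BT T := by
  classical
  rintro ⟨C, E, hC, h⟩
  have hsep : ∀ Y ∈ C, ∃ z : ℝ, ¬ (z ∈ X ↔ z ∈ Y) := by
    intro Y hY
    by_contra hcon
    push Not at hcon
    have : X = Y := Set.ext hcon
    exact hX (this ▸ hC Y hY)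
  choose! w hw using hsep
  let F0 : Finset ℝ := C.image w
  -- find a big finite set avoiding `E`
  have hinf : ∃ F : Finset ℝ, F0 ⊆ F ∧ en.symm (F, {F.filter (· ∈ X)}) ∉ E ∧
      en.symm (F, ∅) ∉ E := by
    by_contra hcon
    push Not at hcon
    have h1 : Set.Infinite (range fun x : (↑(F0 : Set ℝ)ᶜ : Set ℝ) => insert (x : ℝ) F0) := by
      haveI : Infinite (↑(F0 : Set ℝ)ᶜ : Set ℝ) := (F0.finite_toSet.infinite_compl).to_subtype
      refine infinite_range_of_injective ?_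
      rintro ⟨x, hx⟩ ⟨y, hy⟩ hxy
      have hx' : x ∈ insert y F0 := by
        have : x ∈ insert x F0 := Finset.mem_insert_self _ _
        have h2 : insert x F0 = insert y F0 := hxy
        rwa [h2] at this
      rcases Finset.mem_insert.1 hx' with h | h
      · exact Subtype.ext h
      · exact absurd h hx
    apply h1
    have h2 : (range fun x : (↑(F0 : Set ℝ)ᶜ : Set ℝ) => insert (x : ℝ) F0) ⊆
        ↑(E.image fun r => (en r).1) := by
      rintro _ ⟨x, rfl⟩
      rw [Finset.coe_image]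
      by_cases h3 : en.symm (insert (x : ℝ) F0, {(insert (x : ℝ) F0).filter (· ∈ X)}) ∈ E
      · exact ⟨_, h3, by simp⟩
      · exact ⟨_, hcon _ (Finset.subset_insert _ _) h3, by simp⟩
    exact (Finset.finite_toSet _).subset h2
  obtain ⟨F, hF0, hE1, hE2⟩ := hinf
  have hr1 : en.symm (F, {F.filter (· ∈ X)}) ∈ AX X := by simp [AX]
  have hr2 : en.symm (F, (∅ : Finset (Finset ℝ))) ∉ AX X := by simp [AX]
  apply hr2
  rw [← h _ hE1 _ hE2 ?_]
  · exact hr1
  · intro Y hY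
    have h3 : en.symm (F, (∅ : Finset (Finset ℝ))) ∉ AX Y := by simp [AX]
    have h4 : en.symm (F, {F.filter (· ∈ X)}) ∉ AX Y := by
      simp only [AX, mem_setOf_eq, Equiv.apply_symm_apply, Finset.mem_singleton]
      intro h5
      have h6 : w Y ∈ F := hF0 (Finset.mem_image_of_mem w hY)
      apply hw Y hY
      have h7 : w Y ∈ F.filter (· ∈ Y) ↔ w Y ∈ F.filter (· ∈ X) := by rw [h5]
      simp only [Finset.mem_filter, h6, true_and] at h7
      exact h7.symm
    exact ⟨fun h => absurd h h4, fun h => absurd h h3⟩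

theorem BT_injective : Function.Injective BT := by
  intro T T' h
  ext X
  constructor
  · intro hX
    by_contra hc
    exact AX_not_mem T' X hc (h ▸ AX_mem T X hX)
  · intro hX
    by_contra hc
    exact AX_not_mem T X hc (h ▸ AX_mem T' X hX)

/-- an isomorphism between algebras containing singletons comes from a map of points -/
theorem iso_point (A B : BooleanSubalgebra (Set ℝ)) (hA : ∀ x : ℝ, ({x} : Set ℝ) ∈ A)
    (hB : ∀ x : ℝ, ({x} : Set ℝ) ∈ B) (φ : A ≃o B) :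
    ∃ π : ℝ → ℝ, ∀ s : Set ℝ, s ∈ B ↔ ∃ t ∈ A, s = π '' t := by
  have key : ∀ (A B : BooleanSubalgebra (Set ℝ)) (hA : ∀ x : ℝ, ({x} : Set ℝ) ∈ A)
      (hB : ∀ x : ℝ, ({x} : Set ℝ) ∈ B) (φ : A ≃o B) (x : ℝ),
      ∃ y, (φ ⟨{x}, hA x⟩ : Set ℝ) = {y} := by
    intro A B hA hB φ x
    have hne : (φ ⟨{x}, hA x⟩ : Set ℝ) ≠ ∅ := by
      intro h
      have h1 : φ ⟨{x}, hA x⟩ = ⊥ := Subtype.ext h
      have h2 : (⟨{x}, hA x⟩ : A) = ⊥ := by rw [← φ.map_bot] at h1; exact φ.injective h1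
      have h3 : ({x} : Set ℝ) = ∅ := congrArg Subtype.val h2
      exact singleton_ne_empty x h3
    obtain ⟨y, hy⟩ := nonempty_iff_ne_empty.2 hne
    refine ⟨y, ?_⟩
    have h4 : (⟨{y}, hB y⟩ : B) ≤ φ ⟨{x}, hA x⟩ := by
      show ({y} : Set ℝ) ⊆ _
      simpa using hy
    have h5 : φ.symm ⟨{y}, hB y⟩ ≤ ⟨{x}, hA x⟩ := by
      rw [← φ.le_iff_le, φ.apply_symm_apply]; exact h4
    have h6 : (φ.symm ⟨{y}, hB y⟩ : Set ℝ) ⊆ {x} := h5
    rcases subset_singleton_iff_eq.1 h6 with h | h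
    · exfalso
      have h7 : φ.symm ⟨{y}, hB y⟩ = ⊥ := Subtype.ext h
      have h8 : (⟨{y}, hB y⟩ : B) = ⊥ := by
        rw [← φ.symm.map_bot] at h7; exact φ.symm.injective h7
      exact singleton_ne_empty y (congrArg Subtype.val h8)
    · have h9 : φ.symm ⟨{y}, hB y⟩ = ⟨{x}, hA x⟩ := Subtype.ext h
      rw [← h9, φ.apply_symm_apply]
  choose π hπ using key A B hA hB φ
  have himg : ∀ t : A, (φ t : Set ℝ) = π '' t := by
    intro t
    ext y
    obtain ⟨x, hx⟩ := key B A hB hA φ.symm y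
    have hx' : φ ⟨{x}, hA x⟩ = ⟨{y}, hB y⟩ := by
      have : φ.symm ⟨{y}, hB y⟩ = ⟨{x}, hA x⟩ := Subtype.ext hx
      rw [← this, φ.apply_symm_apply]
    have hxy : π x = y := by
      have h1 := hπ x
      rw [hx'] at h1
      exact (singleton_injective h1).symm
    have hmem : y ∈ (φ t : Set ℝ) ↔ x ∈ (t : Set ℝ) := by
      have h1 : y ∈ (φ t : Set ℝ) ↔ (⟨{y}, hB y⟩ : B) ≤ φ t := by
        show _ ↔ ({y} : Set ℝ) ⊆ _
        simp
      have h2 : x ∈ (t : Set ℝ) ↔ (⟨{x}, hA x⟩ : A) ≤ t := by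
        show _ ↔ ({x} : Set ℝ) ⊆ _
        simp
      rw [h1, h2, ← hx', φ.le_iff_le]
    rw [hmem]
    constructor
    · intro h; exact ⟨x, h, hxy⟩
    · rintro ⟨z, hz, hzy⟩
      have h3 : ({z} : Set ℝ) = {x} := by
        have h4 : φ ⟨{z}, hA z⟩ = ⟨{y}, hB y⟩ := by
          apply Subtype.ext; rw [hπ z, hzy]
        rw [← hx'] at h4
        exact congrArg Subtype.val (φ.injective h4)
      rw [← singleton_injective h3]; exact hz
  refine ⟨π, fun s => ⟨fun hs => ?_, ?_⟩⟩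
  · refine ⟨φ.symm ⟨s, hs⟩, (φ.symm ⟨s, hs⟩).2, ?_⟩
    rw [← himg, φ.apply_symm_apply]
  · rintro ⟨t, ht, rfl⟩
    rw [← himg ⟨t, ht⟩]; exact (φ ⟨t, ht⟩).2

theorem count (r : Setoid (BooleanSubalgebra (Set ℝ)))
    (hr : ∀ A B, r.r A B → Nonempty (A ≃o B)) : #(Quotient r) = 2 ^ (2 ^ 𝔠 : Cardinal.{0}) := by
  classical
  apply le_antisymm
  · have h1 : #(Quotient r) ≤ #(BooleanSubalgebra (Set ℝ)) :=
      mk_le_of_surjective Quotient.mk_surjective
    have h2 : #(BooleanSubalgebra (Set ℝ)) ≤ #(Set (Set ℝ)) :=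
      mk_le_of_injective (f := fun A : BooleanSubalgebra (Set ℝ) => (A : Set (Set ℝ)))
        SetLike.coe_injective
    refine (h1.trans h2).trans ?_
    rw [mk_set, mk_set, mk_real]
  · by_contra hlt
    rw [not_le] at hlt
    -- choose representatives
    let q : Set (Set ℝ) → Quotient r := fun T => Quotient.mk r (BT T)
    let rep : Quotient r → Set (Set ℝ) := fun c => if h : ∃ T, q T = c then h.choose else ∅
    have hrep : ∀ T, q (rep (q T)) = q T := by
      intro T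
      have h : ∃ T', q T' = q T := ⟨T, rfl⟩
      simp only [rep, dif_pos h]
      exact h.choose_spec
    have hiso : ∀ T, ∃ π : ℝ → ℝ, ∀ s : Set ℝ, s ∈ BT T ↔ ∃ t ∈ BT (rep (q T)), s = π '' t := by
      intro T
      obtain ⟨φ⟩ := hr _ _ (Quotient.exact (hrep T))
      exact iso_point _ _ (single_mem _) (single_mem _) φ
    choose π hπ using hiso
    have hinj : Function.Injective (fun T : Set (Set ℝ) => ((q T, π T) : Quotient r × (ℝ → ℝ))) := by
      intro T T' h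
      rw [Prod.mk.injEq] at h
      apply BT_injective
      refine SetLike.ext fun s => ?_
      rw [hπ T, hπ T', h.1, h.2]
    have h3 := mk_le_of_injective hinj
    rw [mk_prod, mk_set, mk_set, mk_real] at h3
    simp only [lift_id] at h3
    have h4 : #(ℝ → ℝ) = 2 ^ 𝔠 := by
      rw [← power_def, mk_real]
      exact power_self_eq aleph0_le_continuum
    rw [h4] at h3
    have h5 : ℵ₀ ≤ (2 : Cardinal.{0}) ^ (2 ^ 𝔠 : Cardinal.{0}) := by
      refine aleph0_le_continuum.trans ((cantor 𝔠).le.trans (cantor _).le)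
    exact absurd h3 (not_le.2 (mul_lt_of_lt h5 hlt (cantor _)))

end Pool.Agent.BASets
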